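import Pool.Agent.Q73.WT.Main

/-!
# Weighted translation operators on `L^p([0,1])` are never hypercyclic

`(T f)(x) = φ(x) f({x + α})` on `L^p([0,1])`, `φ` any bounded measurable weight, `α` any real number,
`1 ≤ p ≤ ∞`. We show that `T` is not even supercyclic: no set `{c T^n f : c ∈ ℂ, n ≥ 0}` is dense.

Proof. Let `R x = {x + α}`; then `T^(n+1) f · f ∘ R^n = T^n f · (T f) ∘ R^n`. If the projective orbit
of `f` is dense, then `f` and `φ` vanish almost nowhere. Let `α` be no integer; there is a set `A`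
such that `B = {x ∉ A, R x ∈ A}` is not a null set. Let `c T^n f` be close to the indicator function
of `A`. For most `x` in `B` the number `c (T^(n+1) f)(x) = φ(x) c (T^n f)(R x)` is close to `φ(x)`, and
`c (T^n f)(x)` is close to `0`; as `f(R^n x)` is not too small and `(T f)(R^n x)` not too large, for
most `x`, uniformly in `n`, since `R` preserves the measure, this contradicts the identity. If `α` is
an integer then `T` is the multiplication by `φ`, and approximating the indicator functions of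
`[0, 1/2)` and of its complement one gets `|φ(x)| > |φ(y)|` and `|φ(y)| > |φ(x)|` for some `x`, `y`.
-/

set_option autoImplicit false

open MeasureTheory Set
open scoped ENNReal

namespace Pool.Agent.Results.MP_e40715_an.NeverSupercyclic

/-- Lebesgue measure on `[0,1]`. -/
noncomputable abbrev μ : Measure ℝ := volume.restrict (Icc (0 : ℝ) 1)

/-- The bounded operator `T` is hypercyclic: the orbit `{T^n f : n ≥ 0}` of some vector `f` is
dense. -/
def Hypercyclic {E : Type*} [NormedAddCommGroup E] [NormedSpace ℂ E] (T : E →L[ℂ] E) : Prop :=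
  ∃ f : E, Dense (Set.range fun n : ℕ => (T ^ n) f)

/-- The bounded operator `T` is supercyclic: for some vector `f` the set
`{c T^n f : c ∈ ℂ, n ≥ 0}` is dense. -/
def Supercyclic {E : Type*} [NormedAddCommGroup E] [NormedSpace ℂ E] (T : E →L[ℂ] E) : Prop :=
  ∃ f : E, Dense {g : E | ∃ (c : ℂ) (n : ℕ), g = c • (T ^ n) f}

/-- `T` is the operator `(T f)(x) = φ(x) f({x + α})` on `L^p([0,1])`. -/
def IsWeightedTranslation (p : ℝ≥0∞) [Fact (1 ≤ p)] (φ : ℝ → ℂ) (α : ℝ)
    (T : Lp ℂ p μ →L[ℂ] Lp ℂ p μ) : Prop :=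
  ∀ f : Lp ℂ p μ, T f =ᵐ[μ] fun x => φ x * f (Int.fract (x + α))

theorem rot_preserving (c : ℝ) : MeasurePreserving (fun x : ℝ => Int.fract (x + c)) μ μ := by
  obtain ⟨a, ha⟩ : ∃ a : ℝ, a = Int.fract c := ⟨_, rfl⟩
  have ha0 : 0 ≤ a := by rw [ha]; exact Int.fract_nonneg c
  have ha1 : a < 1 := by rw [ha]; exact Int.fract_lt_one c
  have hf : ∀ x : ℝ, Int.fract (x + c) = Int.fract (x + a) := by
    intro x
    have h1 : x + c = (x + a) + (⌊c⌋ : ℤ) := by
      rw [ha]
      have := Int.fract_add_floor c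
      linarith
    rw [h1, Int.fract_add_intCast]
  have hmeas : Measurable (fun x : ℝ => Int.fract (x + c)) :=
    measurable_fract.comp (measurable_id.add_const c)
  have hμ : μ = volume.restrict (Ico (0 : ℝ) 1) := (Measure.restrict_congr_set Ico_ae_eq_Icc).symm
  rw [hμ]
  refine ⟨hmeas, ?_⟩
  ext S hS
  rw [Measure.map_apply hmeas hS, Measure.restrict_apply (hmeas hS), Measure.restrict_apply hS]
  have h1 : (fun x : ℝ => Int.fract (x + c)) ⁻¹' S ∩ Ico (0:ℝ) 1 =
      (fun x : ℝ => x + a) ⁻¹' (S ∩ Ico a 1) ∪ (fun x : ℝ => x + (a - 1)) ⁻¹' (S ∩ Ico 0 a) := by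
    ext x
    simp only [mem_inter_iff, mem_preimage, mem_union, mem_Ico, hf]
    constructor
    · rintro ⟨hxS, hx0, hx1⟩
      by_cases h : x + a < 1
      · left
        rw [Int.fract_eq_self.2 ⟨by linarith, h⟩] at hxS
        exact ⟨hxS, by linarith, h⟩
      · right
        have h2 : Int.fract (x + a) = x + (a - 1) := by
          rw [Int.fract_eq_iff]
          exact ⟨by linarith, by linarith, 1, by push_cast; ring⟩
        rw [h2] at hxS
        exact ⟨hxS, by linarith, by linarith⟩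
    · rintro (⟨hxS, hx0, hx1⟩ | ⟨hxS, hx0, hx1⟩)
      · rw [Int.fract_eq_self.2 ⟨by linarith, hx1⟩]
        exact ⟨hxS, by linarith, by linarith⟩
      · have h2 : Int.fract (x + a) = x + (a - 1) := by
          rw [Int.fract_eq_iff]
          exact ⟨by linarith, by linarith, 1, by push_cast; ring⟩
        rw [h2]
        exact ⟨hxS, by linarith, by linarith⟩
  have hdis : Disjoint ((fun x : ℝ => x + a) ⁻¹' (S ∩ Ico a 1))
      ((fun x : ℝ => x + (a - 1)) ⁻¹' (S ∩ Ico 0 a)) := by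
    rw [Set.disjoint_left]
    intro x hx hx'
    simp only [mem_inter_iff, mem_preimage, mem_Ico] at hx hx'
    linarith [hx.2.1, hx.2.2, hx'.2.1, hx'.2.2]
  have hm2 : MeasurableSet ((fun x : ℝ => x + (a - 1)) ⁻¹' (S ∩ Ico 0 a)) :=
    (measurable_id.add_const (a - 1)) (hS.inter measurableSet_Ico)
  rw [h1, measure_union hdis hm2, measure_preimage_add_right, measure_preimage_add_right]
  have h3 : S ∩ Ico (0:ℝ) 1 = (S ∩ Ico a 1) ∪ (S ∩ Ico 0 a) := by
    rw [← inter_union_distrib_left, Set.union_comm, Ico_union_Ico_eq_Ico ha0 ha1.le]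
  have hdis2 : Disjoint (S ∩ Ico a 1) (S ∩ Ico 0 a) := by
    rw [Set.disjoint_left]
    intro x hx hx'
    exact absurd hx'.2.2 (not_lt.2 hx.2.1)
  rw [h3, measure_union hdis2 (hS.inter measurableSet_Ico)]

theorem ae_Ico : ∀ᵐ x ∂μ, x ∈ Ico (0 : ℝ) 1 := by
  have hμ : μ = volume.restrict (Ico (0 : ℝ) 1) := (Measure.restrict_congr_set Ico_ae_eq_Icc).symm
  rw [hμ]
  exact ae_restrict_mem measurableSet_Ico

theorem not_dense (p : ℝ≥0∞) [Fact (1 ≤ p)] (φ : ℝ → ℂ) (hφ : MemLp φ ∞ μ) (α : ℝ)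
    (T : Lp ℂ p μ →L[ℂ] Lp ℂ p μ)
    (hT : ∀ f : Lp ℂ p μ, T f =ᵐ[μ] fun x => φ x * f (Int.fract (x + α))) (f : Lp ℂ p μ) :
    ¬ Dense {g : Lp ℂ p μ | ∃ (c : ℂ) (n : ℕ), g = c • (T ^ n) f} := by
  obtain ⟨a, ha⟩ : ∃ a : ℝ, a = Int.fract α := ⟨_, rfl⟩
  have ha0 : 0 ≤ a := by rw [ha]; exact Int.fract_nonneg α
  have ha1 : a < 1 := by rw [ha]; exact Int.fract_lt_one α
  have hf : ∀ x : ℝ, Int.fract (x + α) = Int.fract (x + a) := by
    intro x
    have h1 : x + α = (x + a) + (⌊α⌋ : ℤ) := by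
      rw [ha]
      have := Int.fract_add_floor α
      linarith
    rw [h1, Int.fract_add_intCast]
  rcases ha0.eq_or_lt with h0 | h0
  · -- multiplication
    have hT' : ∀ f : Lp ℂ p μ, T f =ᵐ[μ] fun x => φ x * f x := by
      intro f
      filter_upwards [hT f, ae_Ico] with x hx hx1
      rw [hx, hf, ← h0, add_zero, Int.fract_eq_self.2 ⟨hx1.1, hx1.2⟩]
    refine Pool.Agent.Q73.WT.notDense_of_mul hT' (A := Ico (0 : ℝ) (1 / 2)) measurableSet_Ico
      ?_ ?_ f
    · rw [Measure.restrict_apply measurableSet_Ico]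
      have h1 : Ico (0 : ℝ) (1 / 2) ∩ Icc 0 1 = Ico 0 (1 / 2) := by
        apply inter_eq_left.2
        intro x hx
        exact ⟨hx.1, by linarith [hx.2]⟩
      rw [h1, Real.volume_Ico]
      simp
    · rw [Measure.restrict_apply measurableSet_Ico.compl]
      intro h
      have h1 : Ico (1 / 2 : ℝ) 1 ⊆ (Ico (0 : ℝ) (1 / 2))ᶜ ∩ Icc 0 1 := by
        intro x hx
        exact ⟨fun h2 => by linarith [h2.2, hx.1], by linarith [hx.1], hx.2.le⟩
      have h2 := measure_mono_null h1 h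
      rw [Real.volume_Ico] at h2
      norm_num at h2
  · -- translation
    set m : ℝ := min a (1 - a) with hm
    have hm0 : 0 < m := lt_min h0 (by linarith)
    have hm1 : m ≤ 1 - a := min_le_right _ _
    have hm2 : m ≤ a := min_le_left _ _
    refine Pool.Agent.Q73.WT.notDense_of_move (rot_preserving α) hT
      hφ.aestronglyMeasurable (A := Ico (0 : ℝ) m) measurableSet_Ico ?_ f
    have hmeas : Measurable (fun x : ℝ => Int.fract (x + α)) :=
      measurable_fract.comp (measurable_id.add_const α)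
    rw [Measure.restrict_apply (measurableSet_Ico.compl.inter (hmeas measurableSet_Ico))]
    intro h
    have h1 : Ico (1 - a) (1 - a + m) ⊆
        ((Ico (0 : ℝ) m)ᶜ ∩ (fun x : ℝ => Int.fract (x + α)) ⁻¹' Ico (0 : ℝ) m) ∩ Icc 0 1 := by
      intro x hx
      have h2 : Int.fract (x + α) = x + (a - 1) := by
        rw [hf, Int.fract_eq_iff]
        exact ⟨by linarith [hx.1], by linarith [hx.2], 1, by push_cast; ring⟩
      refine ⟨⟨fun h3 => by linarith [h3.2, hx.1], ?_⟩, by linarith [hx.1], by linarith [hx.2]⟩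
      show Int.fract (x + α) ∈ Ico (0 : ℝ) m
      rw [h2]
      exact ⟨by linarith [hx.1], by linarith [hx.2]⟩
    have h2 := measure_mono_null h1 h
    rw [Real.volume_Ico] at h2
    simp only [add_sub_cancel_left, ENNReal.ofReal_eq_zero] at h2
    linarith

/-- Let `1 ≤ p ≤ ∞`, `φ ∈ L^∞([0,1])`, `α` a real number and `T` the bounded operator
`(T f)(x) = φ(x) f({x + α})` on `L^p([0,1])`. Then `T` is not hypercyclic: there is no `f` whose orbit
`{T^n f : n ≥ 0}` is dense. Moreover, `T` is not supercyclic: there is no `f` such that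
`{c T^n f : c ∈ ℂ, n ≥ 0}` is dense. -/
theorem result (p : ℝ≥0∞) [Fact (1 ≤ p)] (φ : ℝ → ℂ) (hφ : MemLp φ ∞ μ) (α : ℝ)
    (T : Lp ℂ p μ →L[ℂ] Lp ℂ p μ) (hT : IsWeightedTranslation p φ α T) :
    ¬ Hypercyclic T ∧ ¬ Supercyclic T := by
  refine ⟨fun ⟨f, hd⟩ => not_dense p φ hφ α T hT f (hd.mono ?_),
    fun ⟨f, hd⟩ => not_dense p φ hφ α T hT f hd⟩
  rintro _ ⟨n, rfl⟩
  exact ⟨1, n, (one_smul ℂ _).symm⟩

end Pool.Agent.Results.MP_e40715_an.NeverSupercyclic
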